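import Pool.Agent.H815.HG.Grow

/-!
# Homology growth of right-angled Coxeter groups in which every vertex is dominated, over all fields

Let `G` be a finite graph such that for every vertex `v` there is another vertex which is adjacent to all the
neighbours of `v` (`Dom G`), and let `W G` be the right-angled Coxeter group. Then there are maps `t` and `q` on the
vertices as in `Cls G t q`: the fibres of `t` are classes of vertices, `t v` is a representative of the class of `v`, and
both `t v` and `q v`, another element of the class, are adjacent to all the neighbours of the elements of the class.

For a subgroup `H` of finite index of the commutator subgroup, `betti G F H i` is the `i`-th Betti number over the field `F`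
of the quotient of the Davis complex by `H`. The group `H` has no torsion, it acts freely on the Davis complex, which is
contractible, so this is the `i`-th Betti number of the group `H`. For a set `S` of classes let `asc t S` be the set which
consists of the representatives of the classes not in `S` and of the other elements of the classes in `S` (here `S` is
a set of vertices, and the class of `v` is in `S` if `t v ∈ S`).

**Theorem.** For every sequence `Γ 0 ≥ Γ 1 ≥ ...` of subgroups of finite index of the commutator subgroup, normal in
`Γ 0`, with trivial intersection, and for every field `F`, the numbers `b_i (Γ k; F) / [Γ 0 : Γ k]` converge to the product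
of `[W : Γ 0]` and of the mean over all `S` of the dimensions of the reduced homology in the degree `i - 1` over `F` of the
flag complexes of the full subgraphs on `asc t S`. So the limit exists, and it does not depend on the chain. Moreover
there is a bound of the error: if `H` contains no conjugate of `(u v) ^ j` for `u ≠ v` not adjacent and `0 < j < R`, then
the difference of `b_i (H; F) / [W : H]` and of the mean is at most `2 |V| 2 ^ |V| / R`.

Idea of the proof. In the cellular chain complex of the quotient, choose for every cube the lowest vertex for the
directions which are given by the parities of the classes (`HG.Cx`). Let `d_S` be the boundary operator in which the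
upper faces are taken only for the directions of the classes in `S`. There are chain maps `Q_κ = 1 - U_κ` from the
complex with `d_{S ∪ κ}` to the complex with `d_S`, where `U_κ` moves a cube with the direction `v` in the class `κ` by the
generator `v` and changes its direction to `t v`, or to `q v` if `v = t v` (`HG.Shift`, `HG.Ker`). The kernel of `Q_κ`
consists of functions which are constant along the orbits of the product of `t v` and `q v`, so its dimension is at most
`2 ^ |V| [W : H] / R`. So the ranks of the boundary operators with and without the upper faces differ by a small
amount (`HG.Step`), and the complex without upper faces is the direct sum over the vertices of the quotient of the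
augmented chain complexes of the ascending sets (`HG.Cell`, `HG.Cox`).

For the octahedralization `G = OL` of a flag complex `L` (whose Coxeter group is commensurable with the right-angled Artin
group of `L`) all the sets `asc t S` are isomorphic to `L`, in agreement with the theorem of Avramidi, Okun and Schreve
for right-angled Artin groups.
-/

set_option autoImplicit false

open Pool.Agent.H815.TW Pool.Agent.H815.HG Pool.Agent.W907.SG Filter Topology

/-- Convergence of the normalised Betti numbers over all fields, with the value of the limit and a bound of the error, for
all normal chains in all subgroups of finite index of the commutator subgroup of a right-angled Coxeter group in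
which every vertex is dominated. -/
theorem Pool.Agent.Results.MP_83fbc5_gt.DominatedCoxeterGroups.result (V : Type) [Fintype V] [LinearOrder V]
    (G : SimpleGraph V) (hG : Dom G) :
    (∃ t q : V → V, Cls G t q) ∧ ∀ t q : V → V, Cls G t q → ∀ (F : Type) [Field F] (i : ℕ),
      (∀ Γ : ℕ → Subgroup (W G), Antitone Γ → (∀ k, (Γ k).FiniteIndex) → Γ 0 ≤ commutator (W G) →
        (∀ k, ∀ g ∈ Γ 0, ∀ x ∈ Γ k, g * x * g⁻¹ ∈ Γ k) → ⨅ k, Γ k = ⊥ →
        Tendsto (fun k => (betti G F (Γ k) i : ℝ) / (Γ k).relIndex (Γ 0)) atTop
          (𝓝 ((Γ 0).index * (∑ S : Finset V, (red G F (asc t S) i : ℝ)) / 2 ^ Fintype.card V))) ∧
      (∀ (R : ℕ) (H : Subgroup (W G)), H.FiniteIndex → H ≤ commutator (W G) → Far G R H →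
        |(R : ℤ) * (2 ^ Fintype.card V * betti G F H i - H.index * ∑ S : Finset V, (red G F (asc t S) i : ℤ))| ≤
          2 ^ Fintype.card V * (2 * Fintype.card V * 2 ^ Fintype.card V * H.index)) := by
  refine ⟨exists_cls hG, fun t q h F _ i => ⟨fun Γ hanti hf hc hn hbot => ?_, fun R H hf hH hR => ?_⟩⟩
  · exact growth_chain_rel G h F i hanti hf hc hn hbot
  · exact growth G h F i R H hf hH hR
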